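import Mathlib

set_option autoImplicit false

/-! Work functions for the k-server problem: the bound of Koutsoupias and Papadimitriou. -/

namespace Pool.Agent.Q226.DS

open Finset

variable {k : ℕ} {M : Type*} [MetricSpace M]

/-- total distance moved -/
noncomputable def mv (X Y : Fin k → M) : ℝ := ∑ i, dist (X i) (Y i)

theorem mv_nonneg (X Y : Fin k → M) : 0 ≤ mv X Y := Finset.sum_nonneg fun _ _ => dist_nonneg

theorem mv_comm (X Y : Fin k → M) : mv X Y = mv Y X :=
  Finset.sum_congr rfl fun _ _ => dist_comm _ _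

theorem mv_tri (X Y Z : Fin k → M) : mv X Z ≤ mv X Y + mv Y Z := by
  unfold mv
  rw [← Finset.sum_add_distrib]
  exact Finset.sum_le_sum fun _ _ => dist_triangle _ _ _

theorem mv_self (X : Fin k → M) : mv X X = 0 := by simp [mv]

theorem mv_comp (X Y : Fin k → M) (σ : Equiv.Perm (Fin k)) : mv (X ∘ σ) (Y ∘ σ) = mv X Y :=
  Equiv.sum_comp σ (fun i => dist (X i) (Y i))

theorem mv_update (X : Fin k → M) (i : Fin k) (r : M) :
    mv X (Function.update X i r) = dist (X i) r := by
  unfold mv
  rw [Finset.sum_eq_single i]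
  · simp
  · intro j _ hj
    simp [Function.update_of_ne hj]
  · simp

theorem mv_update_update (X Y : Fin k → M) (i : Fin k) (r : M) :
    mv (Function.update X i r) (Function.update Y i r) + dist (X i) (Y i) = mv X Y := by
  unfold mv
  rw [← Finset.sum_erase_add _ _ (Finset.mem_univ i), ← Finset.sum_erase_add _ _ (Finset.mem_univ i)]
  have : ∀ j ∈ univ.erase i, dist (Function.update X i r j) (Function.update Y i r j)
      = dist (X j) (Y j) := by
    intro j hj
    have := Finset.ne_of_mem_erase hj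
    simp [Function.update_of_ne this]
  rw [Finset.sum_congr rfl this]
  simp

/-- The properties of work functions that are used. -/
structure Good (w : (Fin k → M) → ℝ) : Prop where
  nonneg : ∀ X, 0 ≤ w X
  sym : ∀ X (σ : Equiv.Perm (Fin k)), w (X ∘ σ) = w X
  lip : ∀ X Y, w X ≤ w Y + mv X Y
  qc : ∀ X Y, ∃ σ : Equiv.Perm (Fin k), ∀ S : Finset (Fin k),
    w (S.piecewise X (Y ∘ σ)) + w (S.piecewise (Y ∘ σ) X) ≤ w X + w Y

/-- the update of a work function with a request -/
noncomputable def upd (w : (Fin k → M) → ℝ) (r : M) (X : Fin k → M) : ℝ :=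
  ⨅ i : Fin k, (w (Function.update X i r) + dist r (X i))

theorem upd_le (w : (Fin k → M) → ℝ) (r : M) (X : Fin k → M) (i : Fin k) :
    upd w r X ≤ w (Function.update X i r) + dist r (X i) :=
  ciInf_le (Set.finite_range _).bddBelow i

theorem upd_eq (hk : 0 < k) (w : (Fin k → M) → ℝ) (r : M) (X : Fin k → M) :
    ∃ i : Fin k, upd w r X = w (Function.update X i r) + dist r (X i) := by
  haveI : Nonempty (Fin k) := ⟨⟨0, hk⟩⟩
  obtain ⟨i, hi⟩ := exists_eq_ciInf_of_finite
    (f := fun i : Fin k => (w (Function.update X i r) + dist r (X i)))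
  exact ⟨i, hi.symm⟩

theorem le_upd (hk : 0 < k) {w : (Fin k → M) → ℝ} (hw : Good w) (r : M) (X : Fin k → M) :
    w X ≤ upd w r X := by
  obtain ⟨i, hi⟩ := upd_eq hk w r X
  rw [hi]
  have := hw.lip X (Function.update X i r)
  rw [mv_update, dist_comm] at this
  exact this

theorem upd_mem (hk : 0 < k) {w : (Fin k → M) → ℝ} (hw : Good w) (r : M) (X : Fin k → M)
    (h : ∃ i, X i = r) : upd w r X = w X := by
  apply le_antisymm _ (le_upd hk hw r X)
  obtain ⟨i, rfl⟩ := h
  have := upd_le w (X i) X i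
  simpa using this

/-- the permutation in the quasi-convexity can be normalised at one common point -/
theorem qc' {w : (Fin k → M) → ℝ} (hw : Good w) (X Y : Fin k → M) (i0 j0 : Fin k)
    (h : X i0 = Y j0) : ∃ σ : Equiv.Perm (Fin k), σ i0 = j0 ∧ ∀ S : Finset (Fin k),
    w (S.piecewise X (Y ∘ σ)) + w (S.piecewise (Y ∘ σ) X) ≤ w X + w Y := by
  obtain ⟨σ, hσ⟩ := hw.qc X Y
  obtain ⟨b, hb⟩ : ∃ b, b = σ.symm j0 := ⟨_, rfl⟩
  have hσb : σ b = j0 := by rw [hb]; simp
  obtain ⟨τ, hτ⟩ : ∃ τ : Equiv.Perm (Fin k), τ = Equiv.swap i0 b := ⟨_, rfl⟩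
  refine ⟨τ.trans σ, ?_, ?_⟩
  · rw [hτ]; simp [hσb]
  · intro S
    have hτ0 : τ i0 = b := by rw [hτ]; simp
    have hτb : τ b = i0 := by rw [hτ]; simp
    have hτn : ∀ i, i ≠ i0 → i ≠ b → τ i = i := by
      intro i h1 h2
      rw [hτ]; exact Equiv.swap_apply_of_ne_of_ne h1 h2
    by_cases h1 : i0 ∈ S <;> by_cases h2 : b ∈ S
    · have e1 : S.piecewise X (Y ∘ (τ.trans σ)) = S.piecewise X (Y ∘ σ) := by
        funext i
        by_cases hi : i ∈ S
        · simp [hi]
        · have : τ i = i := hτn i (fun h => hi (h ▸ h1)) (fun h => hi (h ▸ h2))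
          simp [hi, this]
      have e2 : S.piecewise (Y ∘ (τ.trans σ)) X = (S.piecewise (Y ∘ σ) X) ∘ τ := by
        funext i
        by_cases hi : i ∈ S
        · have : τ i ∈ S := by
            by_cases h3 : i = i0
            · rw [h3, hτ0]; exact h2
            · by_cases h4 : i = b
              · rw [h4, hτb]; exact h1
              · rw [hτn i h3 h4]; exact hi
          simp [hi, this]
        · have : τ i = i := hτn i (fun h => hi (h ▸ h1)) (fun h => hi (h ▸ h2))
          simp [hi, this]
      rw [e1, e2, hw.sym]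
      exact hσ S
    · have hne : i0 ≠ b := fun h => h2 (h ▸ h1)
      have e1 : S.piecewise X (Y ∘ (τ.trans σ)) = ((S.erase i0).piecewise X (Y ∘ σ)) ∘ τ := by
        funext i
        by_cases h3 : i = i0
        · subst h3
          simp [h1, hτ0, h2, hσb, h]
        · by_cases h4 : i = b
          · subst h4
            simp [h2, hτb]
          · rw [Function.comp_apply, hτn i h3 h4]
            by_cases hi : i ∈ S
            · simp [hi, h3]
            · simp [hi, hτn i h3 h4]
      have e2 : S.piecewise (Y ∘ (τ.trans σ)) X = (S.erase i0).piecewise (Y ∘ σ) X := by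
        funext i
        by_cases h3 : i = i0
        · subst h3
          simp [h1, hτ0, hσb, h]
        · by_cases h4 : i = b
          · subst h4
            simp [h2]
          · by_cases hi : i ∈ S
            · simp [hi, h3, hτn i h3 h4]
            · simp [hi]
      rw [e1, e2, hw.sym]
      exact hσ _
    · have hne : i0 ≠ b := fun h => h1 (h ▸ h2)
      have e1 : S.piecewise X (Y ∘ (τ.trans σ)) = (insert i0 S).piecewise X (Y ∘ σ) := by
        funext i
        by_cases h3 : i = i0
        · subst h3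
          simp [h1, hτ0, hσb, h]
        · by_cases h4 : i = b
          · subst h4
            simp [h2]
          · by_cases hi : i ∈ S
            · simp [hi]
            · simp [hi, h3, hτn i h3 h4]
      have e2 : S.piecewise (Y ∘ (τ.trans σ)) X = ((insert i0 S).piecewise (Y ∘ σ) X) ∘ τ := by
        funext i
        by_cases h3 : i = i0
        · subst h3
          simp [h1, hτ0, h2, hσb, h]
        · by_cases h4 : i = b
          · subst h4
            simp [h2, hτb]
          · rw [Function.comp_apply, hτn i h3 h4]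
            by_cases hi : i ∈ S
            · simp [hi, hτn i h3 h4]
            · simp [hi, h3]
      rw [e1, e2, hw.sym]
      exact hσ _
    · have e1 : S.piecewise (Y ∘ (τ.trans σ)) X = S.piecewise (Y ∘ σ) X := by
        funext i
        by_cases hi : i ∈ S
        · have : τ i = i := hτn i (fun h => h1 (h ▸ hi)) (fun h => h2 (h ▸ hi))
          simp [hi, this]
        · simp [hi]
      have e2 : S.piecewise X (Y ∘ (τ.trans σ)) = (S.piecewise X (Y ∘ σ)) ∘ τ := by
        funext i
        by_cases hi : i ∈ S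
        · have : τ i = i := hτn i (fun h => h1 (h ▸ hi)) (fun h => h2 (h ▸ hi))
          simp [hi, this]
        · have : τ i ∉ S := by
            by_cases h3 : i = i0
            · rw [h3, hτ0]; exact h2
            · by_cases h4 : i = b
              · rw [h4, hτb]; exact h1
              · rw [hτn i h3 h4]; exact hi
          simp [hi, this]
      rw [e1, e2, hw.sym]
      exact hσ S

theorem Good.upd (hk : 0 < k) {w : (Fin k → M) → ℝ} (hw : Good w) (r : M) : Good (upd w r) := by
  have hsym : ∀ X (σ : Equiv.Perm (Fin k)), DS.upd w r (X ∘ σ) ≤ DS.upd w r X := by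
    intro X σ
    obtain ⟨i, hi⟩ := upd_eq hk w r X
    have h1 := upd_le w r (X ∘ σ) (σ.symm i)
    have h2 : Function.update (X ∘ σ) (σ.symm i) r = (Function.update X i r) ∘ σ := by
      funext j
      by_cases hj : j = σ.symm i
      · subst hj; simp
      · have : σ j ≠ i := fun h => hj (by rw [← h]; simp)
        simp [Function.update_of_ne hj, Function.update_of_ne this]
    rw [h2, hw.sym] at h1
    rw [hi]
    simpa using h1
  refine ⟨fun X => (hw.nonneg X).trans (le_upd hk hw r X), ?_, ?_, ?_⟩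
  · intro X σ
    apply le_antisymm (hsym X σ)
    have := hsym (X ∘ σ) σ.symm
    have h2 : (X ∘ σ) ∘ σ.symm = X := by funext j; simp
    rw [h2] at this
    exact this
  · intro X Y
    obtain ⟨i, hi⟩ := upd_eq hk w r Y
    have h1 := upd_le w r X i
    have h2 := hw.lip (Function.update X i r) (Function.update Y i r)
    have h3 := mv_update_update X Y i r
    have h4 := dist_triangle r (Y i) (X i)
    rw [dist_comm (Y i) (X i)] at h4
    rw [hi]
    linarith
  · intro X Y
    obtain ⟨i0, hi0⟩ := upd_eq hk w r X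
    obtain ⟨j0, hj0⟩ := upd_eq hk w r Y
    obtain ⟨σ, hσ0, hσ⟩ := qc' hw (Function.update X i0 r) (Function.update Y j0 r) i0 j0
      (by simp)
    refine ⟨σ, ?_⟩
    intro S
    have key1 : Function.update (S.piecewise X (Y ∘ σ)) i0 r
        = S.piecewise (Function.update X i0 r) (Function.update Y j0 r ∘ σ) := by
      funext i
      by_cases h3 : i = i0
      · subst h3
        by_cases hi : i ∈ S
        · simp [hi]
        · simp [hi, hσ0]
      · have h4 : σ i ≠ j0 := fun h => h3 (σ.injective (h.trans hσ0.symm))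
        by_cases hi : i ∈ S
        · simp [hi, h3]
        · simp [hi, h3, h4]
    have key2 : Function.update (S.piecewise (Y ∘ σ) X) i0 r
        = S.piecewise (Function.update Y j0 r ∘ σ) (Function.update X i0 r) := by
      funext i
      by_cases h3 : i = i0
      · subst h3
        by_cases hi : i ∈ S
        · simp [hi, hσ0]
        · simp [hi]
      · have h4 : σ i ≠ j0 := fun h => h3 (σ.injective (h.trans hσ0.symm))
        by_cases hi : i ∈ S
        · simp [hi, h3, h4]
        · simp [hi, h3]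
    have h1 := upd_le w r (S.piecewise X (Y ∘ σ)) i0
    have h2 := upd_le w r (S.piecewise (Y ∘ σ) X) i0
    rw [key1] at h1
    rw [key2] at h2
    have h3 := hσ S
    by_cases hi : i0 ∈ S
    · have e1 : S.piecewise X (Y ∘ σ) i0 = X i0 := by simp [hi]
      have e2 : S.piecewise (Y ∘ σ) X i0 = Y j0 := by simp [hi, hσ0]
      rw [e1] at h1
      rw [e2] at h2
      linarith
    · have e1 : S.piecewise X (Y ∘ σ) i0 = Y j0 := by simp [hi, hσ0]
      have e2 : S.piecewise (Y ∘ σ) X i0 = X i0 := by simp [hi]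
      rw [e1] at h1
      rw [e2] at h2
      linarith

/-! ### the initial work function -/

/-- cost of the best matching -/
noncomputable def w0 (x0 : Fin k → M) (X : Fin k → M) : ℝ :=
  ⨅ σ : Equiv.Perm (Fin k), mv x0 (X ∘ σ)

theorem w0_le (x0 X : Fin k → M) (σ : Equiv.Perm (Fin k)) : w0 x0 X ≤ mv x0 (X ∘ σ) :=
  ciInf_le (Set.finite_range _).bddBelow σ

theorem w0_eq (x0 X : Fin k → M) : ∃ σ : Equiv.Perm (Fin k), w0 x0 X = mv x0 (X ∘ σ) := by
  obtain ⟨i, hi⟩ := exists_eq_ciInf_of_finite
    (f := fun σ : Equiv.Perm (Fin k) => mv x0 (X ∘ σ))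
  exact ⟨i, hi.symm⟩

theorem w0_self (x0 : Fin k → M) : w0 x0 x0 ≤ 0 := by
  have := w0_le x0 x0 (Equiv.refl _)
  simpa [mv_self] using this

theorem w0_good (x0 : Fin k → M) : Good (w0 x0) := by
  have hsym : ∀ X (σ : Equiv.Perm (Fin k)), w0 x0 (X ∘ σ) ≤ w0 x0 X := by
    intro X σ
    obtain ⟨τ, hτ⟩ := w0_eq x0 X
    have := w0_le x0 (X ∘ σ) (τ.trans σ.symm)
    have h2 : (X ∘ σ) ∘ (τ.trans σ.symm) = X ∘ τ := by funext j; simp
    rw [h2] at this
    rw [hτ]
    exact this
  refine ⟨?_, ?_, ?_, ?_⟩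
  · intro X
    obtain ⟨τ, hτ⟩ := w0_eq x0 X
    rw [hτ]
    exact mv_nonneg _ _
  · intro X σ
    apply le_antisymm (hsym X σ)
    have := hsym (X ∘ σ) σ.symm
    have h2 : (X ∘ σ) ∘ σ.symm = X := by funext j; simp
    rw [h2] at this
    exact this
  · intro X Y
    obtain ⟨τ, hτ⟩ := w0_eq x0 Y
    rw [hτ]
    refine (w0_le x0 X τ).trans ((mv_tri _ (Y ∘ τ) _).trans ?_)
    rw [mv_comp, mv_comm Y X]
  · intro X Y
    obtain ⟨α, hα⟩ := w0_eq x0 X
    obtain ⟨β, hβ⟩ := w0_eq x0 Y
    refine ⟨α.symm.trans β, ?_⟩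
    intro S
    have h1 := w0_le x0 (S.piecewise X (Y ∘ (α.symm.trans β))) α
    have h2 := w0_le x0 (S.piecewise (Y ∘ (α.symm.trans β)) X) α
    have h3 : mv x0 ((S.piecewise X (Y ∘ (α.symm.trans β))) ∘ α)
        + mv x0 ((S.piecewise (Y ∘ (α.symm.trans β)) X) ∘ α)
        = mv x0 (X ∘ α) + mv x0 (Y ∘ β) := by
      unfold mv
      rw [← Finset.sum_add_distrib, ← Finset.sum_add_distrib]
      apply Finset.sum_congr rfl
      intro i _
      by_cases hi : α i ∈ S
      · simp [hi]
      · simp [hi]
        ring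
    linarith

/-! ### duality and the potential -/

theorem exchange {w : (Fin k → M) → ℝ} (hw : Good w) (X Y : Fin k → M) (i : Fin k) :
    ∃ j, w (Function.update X i (Y j)) + w (Function.update Y j (X i)) ≤ w X + w Y := by
  obtain ⟨σ, hσ⟩ := hw.qc X Y
  refine ⟨σ i, ?_⟩
  have h := hσ (univ.erase i)
  have e1 : (univ.erase i).piecewise X (Y ∘ σ) = Function.update X i (Y (σ i)) := by
    funext l
    by_cases hl : l = i
    · subst hl; simp
    · simp [hl]
  have e2 : (univ.erase i).piecewise (Y ∘ σ) X = (Function.update Y (σ i) (X i)) ∘ σ := by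
    funext l
    by_cases hl : l = i
    · subst hl; simp
    · have : σ l ≠ σ i := fun h => hl (σ.injective h)
      simp [hl]
  rw [e1, e2, hw.sym] at h
  exact h

/-- `w A` minus the sum of the distances from `r` -/
noncomputable def red (w : (Fin k → M) → ℝ) (r : M) (A : Fin k → M) : ℝ :=
  w A - ∑ j, dist r (A j)

theorem sum_update (r : M) (A : Fin k → M) (i : Fin k) (x : M) :
    ∑ j, dist r (Function.update A i x j) = ∑ j, dist r (A j) - dist r (A i) + dist r x := by
  rw [← Finset.sum_erase_add _ _ (Finset.mem_univ i),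
    ← Finset.sum_erase_add _ (fun j => dist r (A j)) (Finset.mem_univ i)]
  have : ∀ j ∈ univ.erase i, dist r (Function.update A i x j) = dist r (A j) := by
    intro j hj
    simp [Function.update_of_ne (Finset.ne_of_mem_erase hj)]
  rw [Finset.sum_congr rfl this]
  simp

section
variable (hk : 0 < k) {w : (Fin k → M) → ℝ} (hw : Good w) (r : M) (T : Finset M)
  (A : Fin k → M) (hAT : ∀ i, A i ∈ T) (hA : ∀ X : Fin k → M, (∀ i, X i ∈ T) → red w r A ≤ red w r X)

include hk hw hAT hA in
theorem dual2 (X : Fin k → M) (hX : ∀ i, X i ∈ T) :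
    upd w r X - w X ≤ upd w r A - w A := by
  obtain ⟨a, ha⟩ := upd_eq hk w r A
  obtain ⟨x, hx⟩ := exchange hw (Function.update A a r) X a
  have e1 : Function.update (Function.update A a r) a (X x) = Function.update A a (X x) := by simp
  rw [e1] at hx
  have e2 : Function.update A a r a = r := by simp
  rw [e2] at hx
  have h1 := hA (Function.update A a (X x)) (by
    intro i
    by_cases hi : i = a
    · subst hi; simp [hX]
    · simp [hi, hAT])
  unfold red at h1
  rw [sum_update] at h1
  have h2 := upd_le w r X x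
  linarith

include hk hw hAT hA in
theorem dual1 (X : Fin k → M) (hX : ∀ i, X i ∈ T) : red (upd w r) r A ≤ red (upd w r) r X := by
  obtain ⟨x, hx⟩ := upd_eq hk w r X
  obtain ⟨a, ha⟩ := exchange hw (Function.update X x r) A x
  have e1 : Function.update (Function.update X x r) x (A a) = Function.update X x (A a) := by simp
  rw [e1] at ha
  have e2 : Function.update X x r x = r := by simp
  rw [e2] at ha
  have h1 := hA (Function.update X x (A a)) (by
    intro i
    by_cases hi : i = x
    · subst hi; simp [hAT]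
    · simp [hi, hX])
  unfold red at h1 ⊢
  rw [sum_update] at h1
  have h2 := upd_le w r A a
  linarith
end

/-- the function in the potential -/
noncomputable def Psi (w : (Fin k → M) → ℝ) (U : Fin k → M) (B : Fin k → Fin k → M) : ℝ :=
  k * w U + ∑ i, red w (U i) (B i)

open Classical in
/-- the configurations over which one minimises -/
noncomputable def dom (k : ℕ) (T : Finset M) : Finset ((Fin k → M) × (Fin k → Fin k → M)) :=
  (Fintype.piFinset fun _ => T) ×ˢ (Fintype.piFinset fun _ => (Fintype.piFinset fun _ => T))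

theorem mem_dom (T : Finset M) (p : (Fin k → M) × (Fin k → Fin k → M)) :
    p ∈ dom k T ↔ (∀ i, p.1 i ∈ T) ∧ ∀ i j, p.2 i j ∈ T := by
  simp [dom]

/-- the potential -/
noncomputable def phi (T : Finset M) (w : (Fin k → M) → ℝ) : ℝ :=
  sInf ((fun p : (Fin k → M) × (Fin k → Fin k → M) => Psi w p.1 p.2) '' (dom k T : Set _))

theorem phi_le (T : Finset M) (w : (Fin k → M) → ℝ) (U : Fin k → M) (B : Fin k → Fin k → M)
    (hU : ∀ i, U i ∈ T) (hB : ∀ i j, B i j ∈ T) : phi T w ≤ Psi w U B := by
  apply csInf_le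
  · exact ((dom k T).finite_toSet.image _).bddBelow
  · exact ⟨(U, B), by simpa [mem_dom] using ⟨hU, hB⟩, rfl⟩

theorem phi_eq (T : Finset M) (hT : T.Nonempty) (w : (Fin k → M) → ℝ) :
    ∃ (U : Fin k → M) (B : Fin k → Fin k → M), (∀ i, U i ∈ T) ∧ (∀ i j, B i j ∈ T) ∧
      phi T w = Psi w U B := by
  obtain ⟨t, ht⟩ := hT
  have hne : ((fun p : (Fin k → M) × (Fin k → Fin k → M) => Psi w p.1 p.2) ''
      (dom k T : Set _)).Nonempty := by
    refine ⟨_, (fun _ => t, fun _ _ => t), ?_, rfl⟩
    simp [mem_dom, ht]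
  obtain ⟨p, hp, hp'⟩ := hne.csInf_mem ((dom k T).finite_toSet.image _)
  have hp2 := (mem_dom T p).1 hp
  exact ⟨p.1, p.2, hp2.1, hp2.2, hp'.symm⟩

theorem phi_step (hk : 0 < k) {w : (Fin k → M) → ℝ} (hw : Good w) (r : M) (T : Finset M)
    (hr : r ∈ T) (Y : Fin k → M) (hY : ∀ i, Y i ∈ T) :
    upd w r Y - w Y ≤ phi T (upd w r) - phi T w := by
  obtain ⟨U, B, hU, hB, hUB⟩ := phi_eq T ⟨r, hr⟩ (upd w r)
  obtain ⟨i, hi⟩ := upd_eq hk w r U
  classical
  obtain ⟨A, hAm, hA⟩ := Finset.exists_min_image (Fintype.piFinset fun _ : Fin k => T)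
    (fun A => red w r A) ⟨fun _ => r, by simp [hr]⟩
  rw [Fintype.mem_piFinset] at hAm
  have hA' : ∀ X : Fin k → M, (∀ i, X i ∈ T) → red w r A ≤ red w r X := fun X hX =>
    hA X (by rw [Fintype.mem_piFinset]; exact hX)
  obtain ⟨U', hU'⟩ : ∃ U', U' = Function.update U i r := ⟨_, rfl⟩
  obtain ⟨B', hB'⟩ : ∃ B', B' = Function.update B i A := ⟨_, rfl⟩
  have hU'i : U' i = r := by rw [hU']; simp
  have hwU' : upd w r U' = w U' := upd_mem hk hw r U' ⟨i, hU'i⟩
  have hU'T : ∀ j, U' j ∈ T := by
    intro j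
    rw [hU']
    by_cases hj : j = i
    · subst hj; simp [hr]
    · simp [hj, hU]
  have hB'T : ∀ j l, B' j l ∈ T := by
    intro j
    rw [hB']
    by_cases hj : j = i
    · subst hj; simpa using hAm
    · simpa [hj] using hB j
  -- the first inequality
  have h1 : Psi (upd w r) U' B' ≤ Psi (upd w r) U B := by
    unfold Psi
    rw [← Finset.sum_erase_add _ _ (Finset.mem_univ i),
      ← Finset.sum_erase_add _ (fun j => red (upd w r) (U j) (B j)) (Finset.mem_univ i)]
    have e1 : ∀ j ∈ univ.erase i, red (upd w r) (U' j) (B' j) = red (upd w r) (U j) (B j) := by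
      intro j hj
      have := Finset.ne_of_mem_erase hj
      rw [hU', hB', Function.update_of_ne this, Function.update_of_ne this]
    rw [Finset.sum_congr rfl e1, hU'i]
    have e2 : B' i = A := by rw [hB']; simp
    rw [e2]
    have h2 := dual1 hk hw r T A hAm hA' (B i) (hB i)
    have h3 : red (upd w r) r (B i) ≤ red (upd w r) (U i) (B i) + k * dist r (U i) := by
      unfold red
      have : ∑ j, dist (U i) (B i j) ≤ ∑ j, (dist r (B i j) + dist r (U i)) := by
        apply Finset.sum_le_sum
        intro j _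
        have := dist_triangle (U i) r (B i j)
        rw [dist_comm (U i) r] at this
        linarith
      rw [Finset.sum_add_distrib, Finset.sum_const, Finset.card_univ, Fintype.card_fin,
        nsmul_eq_mul] at this
      linarith
    have h4 : (k : ℝ) * upd w r U' + k * dist r (U i) = k * upd w r U := by
      rw [hi, hwU', hU']; ring
    linarith
  -- the second inequality
  have h2 : Psi w U' B' + (upd w r Y - w Y) ≤ Psi (upd w r) U' B' := by
    unfold Psi
    rw [hwU']
    have e1 : ∀ j ∈ (univ : Finset (Fin k)), red (upd w r) (U' j) (B' j)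
        = red w (U' j) (B' j) + (upd w r (B' j) - w (B' j)) := by
      intro j _
      unfold red
      ring
    rw [Finset.sum_congr rfl e1, Finset.sum_add_distrib]
    have e2 : upd w r (B' i) - w (B' i) ≤ ∑ j, (upd w r (B' j) - w (B' j)) := by
      apply Finset.single_le_sum (f := fun j => upd w r (B' j) - w (B' j)) _ (Finset.mem_univ i)
      intro j _
      have := le_upd hk hw r (B' j)
      linarith
    have e3 : B' i = A := by rw [hB']; simp
    rw [e3] at e2
    have e4 := dual2 hk hw r T A hAm hA' Y hY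
    linarith
  have h3 := phi_le T w U' B' hU'T hB'T
  linarith

theorem phi_upper {w : (Fin k → M) → ℝ} (T : Finset M) (U : Fin k → M) (hU : ∀ i, U i ∈ T) :
    phi T w ≤ 2 * k * w U := by
  refine (phi_le T w U (fun _ => U) hU (fun _ => hU)).trans ?_
  unfold Psi
  have : ∑ i, red w (U i) U ≤ ∑ _i : Fin k, w U := by
    apply Finset.sum_le_sum
    intro i _
    unfold red
    have : 0 ≤ ∑ j, dist (U i) (U j) := Finset.sum_nonneg fun _ _ => dist_nonneg
    linarith
  rw [Finset.sum_const, Finset.card_univ, Fintype.card_fin, nsmul_eq_mul] at this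
  linarith

theorem phi_w0 (T : Finset M) (hT : T.Nonempty) (x0 : Fin k → M) :
    - ∑ i, ∑ j, dist (x0 i) (x0 j) ≤ phi T (w0 x0) := by
  obtain ⟨U, B, -, -, h⟩ := phi_eq T hT (w0 x0)
  rw [h]
  unfold Psi red
  obtain ⟨σ, hσ⟩ := w0_eq x0 U
  choose τ hτ using fun i => w0_eq x0 (B i)
  rw [Finset.sum_sub_distrib]
  have h1 : ∑ i, ∑ j, dist (U i) (B i j)
      = ∑ i, ∑ j, dist (U (σ i)) (B (σ i) (τ (σ i) j)) := by
    rw [← Equiv.sum_comp σ (fun i => ∑ j, dist (U i) (B i j))]
    apply Finset.sum_congr rfl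
    intro i _
    rw [← Equiv.sum_comp (τ (σ i)) (fun j => dist (U (σ i)) (B (σ i) j))]
  have h2 : ∑ i, ∑ j, dist (U (σ i)) (B (σ i) (τ (σ i) j))
      ≤ ∑ i, ∑ j, (dist (x0 i) (U (σ i)) + dist (x0 i) (x0 j)
          + dist (x0 j) (B (σ i) (τ (σ i) j))) := by
    apply Finset.sum_le_sum
    intro i _
    apply Finset.sum_le_sum
    intro j _
    have a1 := dist_triangle (U (σ i)) (x0 i) (B (σ i) (τ (σ i) j))
    have a2 := dist_triangle (x0 i) (x0 j) (B (σ i) (τ (σ i) j))
    rw [dist_comm (U (σ i)) (x0 i)] at a1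
    linarith
  have h3 : ∑ i, ∑ j, (dist (x0 i) (U (σ i)) + dist (x0 i) (x0 j)
          + dist (x0 j) (B (σ i) (τ (σ i) j)))
      = k * w0 x0 U + ∑ i, ∑ j, dist (x0 i) (x0 j) + ∑ i, w0 x0 (B i) := by
    have e1 : ∀ i ∈ (univ : Finset (Fin k)), ∑ j, (dist (x0 i) (U (σ i)) + dist (x0 i) (x0 j)
          + dist (x0 j) (B (σ i) (τ (σ i) j)))
        = k * dist (x0 i) (U (σ i)) + ∑ j, dist (x0 i) (x0 j) + w0 x0 (B (σ i)) := by
      intro i _
      rw [Finset.sum_add_distrib, Finset.sum_add_distrib, Finset.sum_const, Finset.card_univ,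
        Fintype.card_fin, nsmul_eq_mul, hτ (σ i)]
      rfl
    rw [Finset.sum_congr rfl e1, Finset.sum_add_distrib, Finset.sum_add_distrib,
      ← Finset.mul_sum, Equiv.sum_comp σ (fun i => w0 x0 (B i)), hσ]
    rfl
  linarith

end Pool.Agent.Q226.DS
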