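import Pool.Agent.Q226.DS.Defs
import Pool.Agent.Q226.DS.Work

set_option autoImplicit false

/-! The algorithm for the delayed problem: feed the last two requests alternately to the work
function algorithm until both are covered. -/

namespace Pool.Agent.Q226.DS

open Finset
open Classical

variable {k : ℕ} {M : Type*} [MetricSpace M]

/-- one step of the work function algorithm -/
theorem wfa_step (hk : 0 < k) {w : (Fin k → M) → ℝ} (hw : Good w) (r : M) (X : Fin k → M) :
    ∃ X' : Fin k → M, ((∃ j, X j = r) ∧ X' = X ∨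
        (¬ (∃ j, X j = r) ∧ ∃ i, X' = Function.update X i r)) ∧
      upd w r X' + mv X X' = upd w r X := by
  by_cases h : ∃ j, X j = r
  · exact ⟨X, Or.inl ⟨h, rfl⟩, by rw [mv_self, add_zero]⟩
  · obtain ⟨i, hi⟩ := upd_eq hk w r X
    refine ⟨Function.update X i r, Or.inr ⟨h, i, rfl⟩, ?_⟩
    rw [upd_mem hk hw r _ ⟨i, by simp⟩, hi, mv_update, dist_comm]

/-- the request fed in the `n`-th step -/
def fed (q r : M) (n : ℕ) : M := if n % 2 = 0 then r else q

theorem fed_succ_ne (q r : M) (n : ℕ) : fed q r n = q ∧ fed q r (n + 1) = r ∨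
    fed q r n = r ∧ fed q r (n + 1) = q := by
  unfold fed
  rcases Nat.mod_two_eq_zero_or_one n with h | h
  · right
    have : (n + 1) % 2 = 1 := by omega
    simp [h, this]
  · left
    have : (n + 1) % 2 = 0 := by omega
    simp [h, this]

/-- Feeding the two points alternately, both are covered at some time. -/
theorem cover (hk : 2 ≤ k) {w : (Fin k → M) → ℝ} (hw : Good w) (q r : M) (X : Fin k → M)
    (hq : ∃ j, X j = q) :
    ∃ (w' : (Fin k → M) → ℝ) (X' : Fin k → M), Good w' ∧ (∃ j, X' j = q) ∧ (∃ j, X' j = r) ∧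
      (∀ Y : Fin k → M, (∃ j, Y j = q) → (∃ j, Y j = r) → w' Y = w Y) ∧
      (∀ T : Finset M, (∀ i, X i ∈ T) → r ∈ T → (∀ i, X' i ∈ T) ∧
        mv X X' + w' X' - phi T w' ≤ w X - phi T w) := by
  have hk0 : 0 < k := by omega
  -- the sequence of states
  have hstep : ∀ (n : ℕ) (s : ((Fin k → M) → ℝ) × (Fin k → M)), ∃ s' : ((Fin k → M) → ℝ) × (Fin k → M),
      Good s.1 → (s'.1 = upd s.1 (fed q r n) ∧ ((∃ j, s.2 j = fed q r n) ∧ s'.2 = s.2 ∨
        (¬ (∃ j, s.2 j = fed q r n) ∧ ∃ i, s'.2 = Function.update s.2 i (fed q r n))) ∧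
      s'.1 s'.2 + mv s.2 s'.2 = s'.1 s.2) := by
    intro n s
    by_cases h : Good s.1
    · obtain ⟨X', h1, h2⟩ := wfa_step hk0 h (fed q r n) s.2
      exact ⟨(upd s.1 (fed q r n), X'), fun _ => ⟨rfl, h1, h2⟩⟩
    · exact ⟨s, fun h' => absurd h' h⟩
  choose nx hnx using hstep
  let st : ℕ → ((Fin k → M) → ℝ) × (Fin k → M) := fun n => Nat.rec (w, X) (fun n s => nx n s) n
  have st0 : st 0 = (w, X) := rfl
  have sts : ∀ n, st (n + 1) = nx n (st n) := fun n => rfl
  have hgood : ∀ n, Good (st n).1 := by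
    intro n
    induction n with
    | zero => exact hw
    | succ n ih => rw [sts, (hnx n (st n) ih).1]; exact ih.upd hk0 _
  have hmem : ∀ n, fed q r n = q ∨ fed q r n = r := by
    intro n
    rcases fed_succ_ne q r n with h | h
    · left; exact h.1
    · right; exact h.1
  have hval : ∀ n (Y : Fin k → M), (∃ j, Y j = q) → (∃ j, Y j = r) → (st n).1 Y = w Y := by
    intro n Y h1 h2
    induction n with
    | zero => rfl
    | succ n ih =>
      rw [sts, (hnx n (st n) (hgood n)).1, upd_mem hk0 (hgood n), ih]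
      rcases hmem n with h | h
      · rw [h]; exact h1
      · rw [h]; exact h2
  have hT : ∀ T : Finset M, (∀ i, X i ∈ T) → r ∈ T → ∀ n, (∀ i, (st n).2 i ∈ T) ∧
      (∑ m ∈ range n, mv (st m).2 (st (m + 1)).2) + (st n).1 (st n).2 - phi T (st n).1
        ≤ w X - phi T w := by
    intro T hX hr n
    have hqT : q ∈ T := by
      obtain ⟨j, hj⟩ := hq
      rw [← hj]; exact hX j
    have hfT : ∀ n, fed q r n ∈ T := by
      intro n
      rcases hmem n with h | h
      · rw [h]; exact hqT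
      · rw [h]; exact hr
    induction n with
    | zero =>
      refine ⟨hX, ?_⟩
      rw [st0]
      simp
    | succ n ih =>
      obtain ⟨ih1, ih2⟩ := ih
      obtain ⟨h1, h2, h3⟩ := hnx n (st n) (hgood n)
      rw [← sts] at h1 h2 h3
      refine ⟨?_, ?_⟩
      · rcases h2 with ⟨-, h2⟩ | ⟨-, i, h2⟩
        · rw [h2]; exact ih1
        · rw [h2]
          intro j
          by_cases hj : j = i
          · subst hj; simp [hfT]
          · simp [hj, ih1]
      · rw [Finset.sum_range_succ]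
        have h4 := phi_step hk0 (hgood n) (fed q r n) T (hfT n) (st n).2 ih1
        rw [← h1] at h4
        linarith
  by_contra hcon
  -- not both points are covered at any time
  have hnot : ∀ n, ¬ ((∃ j, (st n).2 j = q) ∧ ∃ j, (st n).2 j = r) := by
    rintro n ⟨h1, h2⟩
    apply hcon
    refine ⟨(st n).1, (st n).2, hgood n, h1, h2, hval n, ?_⟩
    intro T hX hr
    obtain ⟨h3, h4⟩ := hT T hX hr n
    refine ⟨h3, ?_⟩
    have h5 : mv X (st n).2 ≤ ∑ m ∈ range n, mv (st m).2 (st (m + 1)).2 := by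
      clear h3 h4 h1 h2
      induction n with
      | zero => rw [st0]; simp [mv_self]
      | succ n ih =>
        rw [Finset.sum_range_succ]
        exact (mv_tri _ (st n).2 _).trans (by linarith)
    linarith
  have hqr : q ≠ r := by
    rintro rfl
    exact hnot 0 ⟨hq, hq⟩
  -- the point fed last is covered
  have hprev : ∀ n, ∃ j, (st n).2 j = fed q r (n + 1) := by
    intro n
    cases n with
    | zero =>
      have : fed q r (0 + 1) = q := by simp [fed]
      rw [this]
      exact hq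
    | succ n =>
      have h0 : fed q r (n + 1 + 1) = fed q r n := by
        unfold fed
        have : (n + 1 + 1) % 2 = n % 2 := by omega
        rw [this]
      rw [h0]
      obtain ⟨h1, h2, h3⟩ := hnx n (st n) (hgood n)
      rw [← sts] at h1 h2 h3
      rcases h2 with ⟨h4, h2⟩ | ⟨-, i, h2⟩
      · rw [h2]; exact h4
      · rw [h2]; exact ⟨i, by simp⟩
  have hcost : ∀ n, mv (st n).2 (st (n + 1)).2 = dist q r := by
    intro n
    obtain ⟨h1, h2, h3⟩ := hnx n (st n) (hgood n)
    rw [← sts] at h1 h2 h3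
    have hp := hprev n
    rcases h2 with ⟨h4, -⟩ | ⟨h4, i, h2⟩
    · exfalso
      apply hnot n
      rcases fed_succ_ne q r n with ⟨h5, h6⟩ | ⟨h5, h6⟩
      · rw [h5] at h4; rw [h6] at hp; exact ⟨h4, hp⟩
      · rw [h5] at h4; rw [h6] at hp; exact ⟨hp, h4⟩
    · rw [h2, mv_update]
      obtain ⟨j, hj⟩ := hp
      by_cases hji : j = i
      · rw [← hji, hj]
        rcases fed_succ_ne q r n with ⟨h5, h6⟩ | ⟨h5, h6⟩
        · rw [h5, h6, dist_comm]
        · rw [h5, h6]
      · exfalso
        have h7 : (st (n + 1)).2 j = fed q r (n + 1) := by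
          rw [h2, Function.update_of_ne hji, hj]
        have h8 : (st (n + 1)).2 i = fed q r n := by rw [h2]; simp
        apply hnot (n + 1)
        rcases fed_succ_ne q r n with ⟨h5, h6⟩ | ⟨h5, h6⟩
        · rw [h5] at h8; rw [h6] at h7; exact ⟨⟨i, h8⟩, ⟨j, h7⟩⟩
        · rw [h5] at h8; rw [h6] at h7; exact ⟨⟨j, h7⟩, ⟨i, h8⟩⟩
  -- a configuration covering both
  obtain ⟨T, hTd⟩ : ∃ T : Finset M, T = insert r (univ.image X) := ⟨_, rfl⟩
  have hXT : ∀ i, X i ∈ T := fun i => by
    rw [hTd]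
    exact Finset.mem_insert_of_mem (Finset.mem_image_of_mem _ (Finset.mem_univ i))
  have hrT : r ∈ T := by rw [hTd]; exact Finset.mem_insert_self _ _
  obtain ⟨j0, hj0⟩ := hq
  obtain ⟨i0, hi0⟩ : ∃ i0 : Fin k, i0 ≠ j0 := by
    by_cases h : j0 = ⟨0, hk0⟩
    · exact ⟨⟨1, by omega⟩, by rw [h]; intro h'; simpa using congrArg Fin.val h'⟩
    · exact ⟨⟨0, hk0⟩, fun h' => h h'.symm⟩
  obtain ⟨U, hU⟩ : ∃ U, U = Function.update X i0 r := ⟨_, rfl⟩
  have hUq : ∃ j, U j = q := ⟨j0, by rw [hU, Function.update_of_ne hi0.symm, hj0]⟩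
  have hUr : ∃ j, U j = r := ⟨i0, by rw [hU]; simp⟩
  have hUT : ∀ i, U i ∈ T := by
    intro i
    rw [hU]
    by_cases hi : i = i0
    · subst hi; simp [hrT]
    · simp [hi, hXT]
  have hd : 0 < dist q r := dist_pos.2 hqr
  obtain ⟨n, hn⟩ := exists_nat_gt ((w X - phi T w + 2 * k * w U) / dist q r)
  have h1 := (hT T hXT hrT n).2
  rw [Finset.sum_congr rfl (fun m _ => hcost m), Finset.sum_const, Finset.card_range,
    nsmul_eq_mul] at h1
  have h2 := phi_upper (w := (st n).1) T U hUT
  rw [hval n U hUq hUr] at h2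
  have h3 := (hgood n).nonneg (st n).2
  rw [div_lt_iff₀ hd] at hn
  linarith

/-- the states of the algorithm -/
structure St (k : ℕ) (M : Type*) [MetricSpace M] where
  w : (Fin k → M) → ℝ
  good : Good w
  X : Fin k → M
  f : Fin k

/-- one step of the delayed algorithm -/
theorem delayed_step (hk : 2 ≤ k) (s : St k M) (r : M) : ∃ s' : St k M,
    s'.X s.f = s.X s.f ∧ s'.X s'.f = r ∧
      (∀ Y : Fin k → M, (∃ j, Y j = s.X s.f) → (∃ j, Y j = r) → s'.w Y = s.w Y) ∧
      (∀ T : Finset M, (∀ i, s.X i ∈ T) → r ∈ T → (∀ i, s'.X i ∈ T) ∧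
        mv s.X s'.X + s'.w s'.X - phi T s'.w ≤ s.w s.X - phi T s.w) := by
  obtain ⟨w', X', hg, ⟨j, hj⟩, ⟨l, hl⟩, hval, hT⟩ := cover hk s.good (s.X s.f) r s.X ⟨s.f, rfl⟩
  obtain ⟨τ, hτ⟩ : ∃ τ : Equiv.Perm (Fin k), τ = Equiv.swap s.f j := ⟨_, rfl⟩
  refine ⟨⟨w', hg, X' ∘ τ, τ.symm l⟩, ?_, ?_, hval, ?_⟩
  · show X' (τ s.f) = s.X s.f
    rw [hτ]; simp [hj]
  · show X' (τ (τ.symm l)) = r
    simp [hl]
  · intro T hX hr
    obtain ⟨h1, h2⟩ := hT T hX hr
    refine ⟨fun i => h1 _, ?_⟩
    show mv s.X (X' ∘ τ) + w' (X' ∘ τ) - phi T w' ≤ s.w s.X - phi T s.w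
    rw [hg.sym]
    have h3 : mv s.X (X' ∘ τ) ≤ mv s.X X' := by
      by_cases hfj : s.f = j
      · have : τ = Equiv.refl _ := by rw [hτ, hfj]; simp
        rw [this]
        exact le_of_eq rfl
      · unfold mv
        have hsum : ∀ g : Fin k → ℝ, ∑ i, g i = g s.f + (g j + ∑ i ∈ (univ.erase s.f).erase j, g i) := by
          intro g
          rw [Finset.add_sum_erase _ _ (Finset.mem_erase.2 ⟨fun h => hfj h.symm, Finset.mem_univ j⟩),
            Finset.add_sum_erase _ _ (Finset.mem_univ s.f)]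
        rw [hsum, hsum (fun i => dist (s.X i) (X' i))]
        have e1 : ∀ i ∈ (univ.erase s.f).erase j, dist (s.X i) ((X' ∘ τ) i)
            = dist (s.X i) (X' i) := by
          intro i hi
          rw [Finset.mem_erase, Finset.mem_erase] at hi
          rw [Function.comp_apply, hτ, Equiv.swap_apply_of_ne_of_ne hi.2.1 hi.1]
        rw [Finset.sum_congr rfl e1]
        have e2 : (X' ∘ τ) s.f = s.X s.f := by rw [Function.comp_apply, hτ]; simp [hj]
        have e3 : (X' ∘ τ) j = X' s.f := by rw [Function.comp_apply, hτ]; simp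
        rw [e2, e3, dist_self]
        have := dist_triangle (s.X j) (X' j) (X' s.f)
        rw [hj] at this
        have h5 : dist (s.X j) (X' j) = dist (s.X j) (s.X s.f) := by rw [hj]
        linarith
    linarith

theorem exists_alg (hk : 2 ≤ k) (x0 : Fin k → M) (f0 : Fin k) :
    ∃ A : OnlineAlg k M x0 f0, A.Competitive (2 * k - 1) := by
  have hk0 : 0 < k := by omega
  choose nx h1 h2 h3 h4 using delayed_step (M := M) hk
  let s0 : St k M := ⟨w0 x0, w0_good x0, x0, f0⟩
  let st : List M → St k M := fun h => h.foldl nx s0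
  have st_nil : st [] = s0 := rfl
  have st_snoc : ∀ h r, st (h ++ [r]) = nx (st h) r := by
    intro h r
    show (h ++ [r]).foldl nx s0 = _
    rw [List.foldl_append]
    rfl
  let A : OnlineAlg k M x0 f0 :=
    { pos := fun h => (st h).X
      frz := fun h => (st h).f
      pos_nil := rfl
      frz_nil := rfl
      frozen := fun h r => by
        show (st (h ++ [r])).X (st h).f = (st h).X (st h).f
        rw [st_snoc]; exact h1 _ _
      serves := fun h r => by
        show (st (h ++ [r])).X (st (h ++ [r])).f = r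
        rw [st_snoc]; exact h2 _ _ }
  refine ⟨A, ∑ i, ∑ j, dist (x0 i) (x0 j), ?_⟩
  intro ρ
  have hC : (0 : ℝ) < 2 * k - 1 := by
    have : (2 : ℝ) ≤ k := by exact_mod_cast hk
    linarith
  -- comparison with a schedule
  have main : ∀ (Y : ℕ → Fin k → M) (s : ℕ → Fin k), IsSchedule x0 f0 ρ Y s →
      A.cost ρ ≤ (2 * k - 1) * (∑ t ∈ range ρ.length, ∑ i, dist (Y t i) (Y (t + 1) i))
        + ∑ i, ∑ j, dist (x0 i) (x0 j) := by
    intro Y s hY
    obtain ⟨T, hTd⟩ : ∃ T : Finset M, T = ρ.toFinset ∪ univ.image x0 ∪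
      (range (ρ.length + 1)).biUnion (fun t => univ.image (Y t)) := ⟨_, rfl⟩
    have hx0T : ∀ i, x0 i ∈ T := by
      intro i
      rw [hTd]
      simp
    have hρT : ∀ r ∈ ρ, r ∈ T := by
      intro r hr
      rw [hTd]
      simp [hr]
    have hYT : ∀ t ≤ ρ.length, ∀ i, Y t i ∈ T := by
      intro t ht i
      rw [hTd, Finset.mem_union, Finset.mem_biUnion]
      right
      exact ⟨t, by rw [Finset.mem_range]; omega, Finset.mem_image_of_mem _ (Finset.mem_univ i)⟩
    have htake : ∀ t (ht : t < ρ.length), ρ.take (t + 1) = ρ.take t ++ [ρ[t]] := by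
      intro t ht
      rw [List.take_succ_eq_append_getElem ht]
    have inv : ∀ t ≤ ρ.length,
        (st (ρ.take t)).X (st (ρ.take t)).f = Y t (s t) ∧
        (∀ i, (st (ρ.take t)).X i ∈ T) ∧
        (st (ρ.take t)).w (Y t) ≤ ∑ u ∈ range t, mv (Y u) (Y (u + 1)) ∧
        (∑ u ∈ range t, mv (A.pos (ρ.take u)) (A.pos (ρ.take (u + 1))))
          + (st (ρ.take t)).w (st (ρ.take t)).X - phi T (st (ρ.take t)).w
            ≤ ∑ i, ∑ j, dist (x0 i) (x0 j) := by
      intro t
      induction t with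
      | zero =>
        intro _
        rw [List.take_zero, st_nil]
        refine ⟨?_, hx0T, ?_, ?_⟩
        · rw [hY.start_pos, hY.start_frz]
        · rw [hY.start_pos, Finset.range_zero, Finset.sum_empty]
          exact w0_self x0
        · rw [Finset.range_zero, Finset.sum_empty]
          have e1 := w0_self x0
          have e2 := phi_w0 T ⟨x0 f0, hx0T f0⟩ x0
          show 0 + w0 x0 x0 - phi T (w0 x0) ≤ _
          linarith
      | succ t ih =>
        intro ht
        have ht' : t < ρ.length := ht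
        obtain ⟨i1, i2, i3, i4⟩ := ih ht'.le
        have hrT : ρ[t] ∈ T := hρT _ (List.getElem_mem ht')
        have hst : st (ρ.take (t + 1)) = nx (st (ρ.take t)) ρ[t] := by
          rw [htake t ht', st_snoc]
        obtain ⟨j1, j2⟩ := h4 (st (ρ.take t)) ρ[t] T i2 hrT
        have hYq : ∃ j, Y (t + 1) j = (st (ρ.take t)).X (st (ρ.take t)).f :=
          ⟨s t, by rw [i1]; exact hY.frozen t ht'⟩
        have hYr : ∃ j, Y (t + 1) j = ρ[t] := ⟨s (t + 1), hY.serves t ht'⟩
        refine ⟨?_, ?_, ?_, ?_⟩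
        · rw [hst, h2]
          exact (hY.serves t ht').symm
        · rw [hst]; exact j1
        · rw [hst, h3 _ _ _ hYq hYr, Finset.sum_range_succ]
          have := (st (ρ.take t)).good.lip (Y (t + 1)) (Y t)
          rw [mv_comm] at this
          linarith
        · rw [Finset.sum_range_succ, hst]
          have e1 : A.pos (ρ.take (t + 1)) = (nx (st (ρ.take t)) ρ[t]).X := by
            show (st (ρ.take (t + 1))).X = _
            rw [hst]
          have e2 : A.pos (ρ.take t) = (st (ρ.take t)).X := rfl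
          rw [e1, e2]
          linarith
    obtain ⟨-, i2, i3, i4⟩ := inv ρ.length le_rfl
    obtain ⟨U, hUm, hU⟩ := Finset.exists_min_image (Fintype.piFinset fun _ : Fin k => T)
      (fun U => (st (ρ.take ρ.length)).w U) ⟨x0, by simp [hx0T]⟩
    rw [Fintype.mem_piFinset] at hUm
    have g1 := phi_upper (w := (st (ρ.take ρ.length)).w) T U hUm
    have g2 := hU (st (ρ.take ρ.length)).X (by rw [Fintype.mem_piFinset]; exact i2)
    have g3 := hU (Y ρ.length) (by rw [Fintype.mem_piFinset]; exact hYT _ le_rfl)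
    have g4 : A.cost ρ = ∑ u ∈ range ρ.length, mv (A.pos (ρ.take u)) (A.pos (ρ.take (u + 1))) := rfl
    have g5 : (∑ t ∈ range ρ.length, ∑ i, dist (Y t i) (Y (t + 1) i))
        = ∑ u ∈ range ρ.length, mv (Y u) (Y (u + 1)) := rfl
    rw [g4, g5]
    have g6 : (2 * (k : ℝ) - 1) * (st (ρ.take ρ.length)).w U
        ≤ (2 * k - 1) * ∑ u ∈ range ρ.length, mv (Y u) (Y (u + 1)) :=
      mul_le_mul_of_nonneg_left (g3.trans i3) hC.le
    linarith
  -- take the infimum
  have hne : {c : ℝ | ∃ (Y : ℕ → Fin k → M) (s : ℕ → Fin k), IsSchedule x0 f0 ρ Y s ∧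
    c = ∑ t ∈ range ρ.length, ∑ i, dist (Y t i) (Y (t + 1) i)}.Nonempty := by
    refine ⟨_, fun t => A.pos (ρ.take t), fun t => A.frz (ρ.take t), ⟨?_, ?_, ?_, ?_⟩, rfl⟩
    · exact A.pos_nil
    · exact A.frz_nil
    · intro t ht
      show A.pos (ρ.take (t + 1)) (A.frz (ρ.take t)) = A.pos (ρ.take t) (A.frz (ρ.take t))
      rw [List.take_succ_eq_append_getElem ht]
      exact A.frozen _ _
    · intro t ht
      show A.pos (ρ.take (t + 1)) (A.frz (ρ.take (t + 1))) = ρ[t]
      rw [List.take_succ_eq_append_getElem ht]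
      exact A.serves _ _
  have hle : (A.cost ρ - ∑ i, ∑ j, dist (x0 i) (x0 j)) / (2 * k - 1) ≤ opt x0 f0 ρ := by
    apply le_csInf hne
    rintro c ⟨Y, s, hY, rfl⟩
    rw [div_le_iff₀ hC]
    have := main Y s hY
    linarith
  rw [div_le_iff₀ hC] at hle
  linarith

end Pool.Agent.Q226.DS
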