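import Mathlib

set_option autoImplicit false

/-! The delayed k-server problem: definitions. -/

namespace Pool.Agent.Q226.DS

open Finset

/-- A deterministic online algorithm for the delayed `k`-server problem on `M`, with initial
positions `x0` and initially frozen server `f0`. After the requests of the list `h` (in order of
arrival) the server `i` is at `pos h i`, and `frz h` is the server that served the last request of
`h` (the frozen server for the next step). -/
structure OnlineAlg (k : ℕ) (M : Type*) (x0 : Fin k → M) (f0 : Fin k) where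
  pos : List M → Fin k → M
  frz : List M → Fin k
  pos_nil : pos [] = x0
  frz_nil : frz [] = f0
  /-- the frozen server is not moved -/
  frozen : ∀ (h : List M) (r : M), pos (h ++ [r]) (frz h) = pos h (frz h)
  /-- the request is served -/
  serves : ∀ (h : List M) (r : M), pos (h ++ [r]) (frz (h ++ [r])) = r

/-- the total distance moved by the algorithm on the request sequence `ρ` -/
noncomputable def OnlineAlg.cost {k : ℕ} {M : Type*} [MetricSpace M] {x0 : Fin k → M} {f0 : Fin k}
    (A : OnlineAlg k M x0 f0) (ρ : List M) : ℝ :=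
  ∑ t ∈ range ρ.length, ∑ i, dist (A.pos (ρ.take t) i) (A.pos (ρ.take (t + 1)) i)

/-- `Y t` are the positions after step `t` and `s t` is the server that served at step `t`
(`s 0` is the initially frozen server) in an offline schedule for the request sequence `ρ`. -/
structure IsSchedule {k : ℕ} {M : Type*} (x0 : Fin k → M) (f0 : Fin k) (ρ : List M)
    (Y : ℕ → Fin k → M) (s : ℕ → Fin k) : Prop where
  start_pos : Y 0 = x0
  start_frz : s 0 = f0
  frozen : ∀ t < ρ.length, Y (t + 1) (s t) = Y t (s t)
  serves : ∀ (t : ℕ) (ht : t < ρ.length), Y (t + 1) (s (t + 1)) = ρ[t]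

/-- the optimal offline cost -/
noncomputable def opt {k : ℕ} {M : Type*} [MetricSpace M] (x0 : Fin k → M) (f0 : Fin k)
    (ρ : List M) : ℝ :=
  sInf {c : ℝ | ∃ (Y : ℕ → Fin k → M) (s : ℕ → Fin k), IsSchedule x0 f0 ρ Y s ∧
    c = ∑ t ∈ range ρ.length, ∑ i, dist (Y t i) (Y (t + 1) i)}

/-- `A` is `C`-competitive -/
def OnlineAlg.Competitive {k : ℕ} {M : Type*} [MetricSpace M] {x0 : Fin k → M} {f0 : Fin k}
    (A : OnlineAlg k M x0 f0) (C : ℝ) : Prop :=
  ∃ K : ℝ, ∀ ρ : List M, A.cost ρ ≤ C * opt x0 f0 ρ + K

end Pool.Agent.Q226.DS
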